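import Mathlib.GroupTheory.Commutator.Basic
import Mathlib.GroupTheory.Finiteness
import Mathlib.Algebra.Group.Subgroup.Basic
import Mathlib.Algebra.Group.End
import Mathlib.Tactic

/-!
Characters of a group controlled at an end, and the obstruction to being a derived
subgroup.
-/

namespace Q151.Thom

open Subgroup
open scoped commutatorElement

theorem fg_map {F G : Type*} [Group F] [Group G] {S : Subgroup F} (h : S.FG) (f : F →* G) :
    (S.map f).FG := by
  classical
  obtain ⟨T, rfl⟩ := h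
  refine ⟨T.image f, ?_⟩
  rw [MonoidHom.map_closure]
  simp

/-- `χ` is an additive character (a homomorphism to `ℤ`). -/
def IsChr {F : Type*} [Group F] (χ : F → ℤ) : Prop := ∀ x y, χ (x * y) = χ x + χ y

section chr
variable {F : Type*} [Group F] {χ : F → ℤ} (h : IsChr χ)
include h

theorem IsChr.one : χ 1 = 0 := by
  have := h 1 1
  simp at this
  exact this

theorem IsChr.inv (x : F) : χ x⁻¹ = - χ x := by
  have := h x x⁻¹
  rw [mul_inv_cancel, h.one] at this
  linarith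

theorem IsChr.pow (x : F) (n : ℕ) : χ (x ^ n) = n * χ x := by
  induction n with
  | zero => simp [h.one]
  | succ n ih => rw [pow_succ, h, ih]; push_cast; ring

theorem IsChr.zpow (x : F) (n : ℤ) : χ (x ^ n) = n * χ x := by
  cases n with
  | ofNat n => simpa using h.pow x n
  | negSucc n => rw [zpow_negSucc, h.inv, h.pow]; push_cast [Int.negSucc_eq]; ring

theorem IsChr.conj (g x : F) : χ (g * x * g⁻¹) = χ x := by
  rw [h, h, h.inv]; ring

theorem IsChr.comp {G : Type*} [Group G] (f : G →* F) : IsChr (fun x => χ (f x)) := by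
  intro x y
  simp [h (f x) (f y)]

end chr

/-- The data of a character controlled at an end. -/
structure ED {F : Type*} [Group F] (χ : F → ℤ) (A : F) (B : ℤ → Subgroup F) : Prop where
  chr : IsChr χ
  hA : χ A = 1
  anti : ∀ i, B (i + 1) ≤ B i
  ker : ∀ i x, x ∈ B i → χ x = 0
  fg : ∀ i, (B i).FG
  conj : ∀ i x, x ∈ B i ↔ A * x * A⁻¹ ∈ B (i + 1)
  union : ∀ x, χ x = 0 → ∃ i, x ∈ B i
  strict : ∀ i, ¬ (B i ≤ B (i + 1))
  comm : ∀ i, ∃ g, χ g ≠ 0 ∧ ∀ x ∈ B i, g * x = x * g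

namespace ED
variable {F : Type*} [Group F] {χ : F → ℤ} {A : F} {B : ℤ → Subgroup F} (h : ED χ A B)
include h

theorem mono {i j : ℤ} (hij : i ≤ j) : B j ≤ B i := by
  obtain ⟨n, rfl⟩ := Int.le.dest hij
  induction n with
  | zero => simp
  | succ n ih =>
    refine le_trans ?_ (ih (by omega))
    have := h.anti (i + n)
    push_cast
    rw [← add_assoc]
    exact this

theorem strict' {i j : ℤ} (hij : B i ≤ B j) : j ≤ i := by
  by_contra hc
  push Not at hc
  exact h.strict i (hij.trans (h.mono (by omega)))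

theorem conj_pow (n : ℕ) (i : ℤ) (x : F) :
    x ∈ B i ↔ A ^ n * x * (A ^ n)⁻¹ ∈ B (i + n) := by
  induction n with
  | zero => simp
  | succ n ih =>
    rw [ih, h.conj]
    have e1 : A * (A ^ n * x * (A ^ n)⁻¹) * A⁻¹ = A ^ (n + 1) * x * (A ^ (n + 1))⁻¹ := by
      rw [pow_succ']; group
    rw [e1]
    push_cast
    rw [add_assoc]

theorem conj_zpow (n : ℤ) (i : ℤ) (x : F) :
    x ∈ B i ↔ A ^ n * x * (A ^ n)⁻¹ ∈ B (i + n) := by
  rcases Int.eq_nat_or_neg n with ⟨m, rfl | rfl⟩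
  · simpa using h.conj_pow m i x
  · have := h.conj_pow m (i + -(m : ℤ)) (A ^ (-(m : ℤ)) * x * (A ^ (-(m : ℤ)))⁻¹)
    rw [this]
    have e1 : A ^ m * (A ^ (-(m : ℤ)) * x * (A ^ (-(m : ℤ)))⁻¹) * (A ^ m)⁻¹ = x := by
      simp only [zpow_neg, zpow_natCast]; group
    rw [e1]
    simp

theorem exists_le (S : Subgroup F) (hS : S.FG) (hk : ∀ x ∈ S, χ x = 0) : ∃ i, S ≤ B i := by
  classical
  obtain ⟨T, rfl⟩ := hS
  have key : ∀ T : Finset F, (∀ x ∈ T, χ x = 0) → ∃ i, ∀ x ∈ T, x ∈ B i := by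
    intro T
    induction T using Finset.induction_on with
    | empty => intro _; exact ⟨0, by simp⟩
    | insert a s ha ih =>
      intro hT
      obtain ⟨i, hi⟩ := ih (fun x hx => hT x (Finset.mem_insert_of_mem hx))
      obtain ⟨j, hj⟩ := h.union a (hT a (Finset.mem_insert_self a s))
      refine ⟨min i j, ?_⟩
      intro x hx
      rcases Finset.mem_insert.1 hx with rfl | hx
      · exact h.mono (min_le_right i j) hj
      · exact h.mono (min_le_left i j) (hi x hx)
  obtain ⟨i, hi⟩ := key T (fun x hx => hk x (subset_closure hx))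
  exact ⟨i, (closure_le _).2 hi⟩

/-- Conjugation by `g` shifts the filtration by `χ g` near the end. -/
theorem shift (g : F) : ∃ j, ∀ i ≤ j, ∀ x, x ∈ B i ↔ g * x * g⁻¹ ∈ B (i + χ g) := by
  have hk : χ (A ^ (-χ g) * g) = 0 := by
    rw [h.chr, h.chr.zpow, h.hA]; ring
  obtain ⟨j, hj⟩ := h.union _ hk
  refine ⟨j, fun i hi x => ?_⟩
  set k := A ^ (-χ g) * g with hkdef
  have hkB : k ∈ B i := h.mono hi hj
  have h1 : x ∈ B i ↔ k * x * k⁻¹ ∈ B i := by
    constructor
    · intro hx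
      exact mul_mem (mul_mem hkB hx) (inv_mem hkB)
    · intro hx
      have := mul_mem (mul_mem (inv_mem hkB) hx) hkB
      have e : k⁻¹ * (k * x * k⁻¹) * k = x := by group
      rwa [e] at this
  rw [h1, h.conj_zpow (χ g) i (k * x * k⁻¹)]
  have e : A ^ χ g * (k * x * k⁻¹) * (A ^ χ g)⁻¹ = g * x * g⁻¹ := by
    rw [hkdef]; group
  rw [e]

end ED

/-- `χ` admits end data. -/
def E {F : Type*} [Group F] (χ : F → ℤ) : Prop := ∃ A B, ED χ A B

theorem sign {F : Type*} [Group F] {χ : F → ℤ} (h : E χ) (h' : E (fun x => - χ x)) : False := by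
  obtain ⟨A, B, h⟩ := h
  obtain ⟨A', B', h'⟩ := h'
  have hA' : χ A' = -1 := by
    have := h'.hA
    linarith
  obtain ⟨j0, hj0⟩ := h.shift A'
  rw [hA'] at hj0
  -- conjugation by powers of `A'`
  have hp : ∀ n : ℕ, ∀ x, x ∈ B (j0 - n) → (A' ^ n)⁻¹ * x * A' ^ n ∈ B j0 := by
    intro n
    induction n with
    | zero => intro x hx; simpa using hx
    | succ n ih =>
      intro x hx
      have h1 : A'⁻¹ * x * A' ∈ B (j0 - n) := by
        rw [hj0 (j0 - n) (by omega)]
        have e : A' * (A'⁻¹ * x * A') * A'⁻¹ = x := by group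
        rw [e]
        convert hx using 2
        push_cast; ring
      have h2 := ih _ h1
      have e : (A' ^ n)⁻¹ * (A'⁻¹ * x * A') * A' ^ n = (A' ^ (n + 1))⁻¹ * x * A' ^ (n + 1) := by
        rw [pow_succ']; group
      rwa [e] at h2
  obtain ⟨j, hj⟩ := h'.exists_le (B j0) (h.fg j0) (fun x hx => by
    have := h.ker _ x hx
    simp [this])
  obtain ⟨l, hl⟩ := h.exists_le (B' j) (h'.fg j) (fun x hx => by
    have := h'.ker _ x hx
    linarith)
  have hle : ∀ n : ℕ, B (j0 - n) ≤ B l := by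
    intro n x hx
    apply hl
    have h1 := hj (hp n x hx)
    have h2 := (h'.conj_pow n j _).1 h1
    have e : A' ^ n * ((A' ^ n)⁻¹ * x * A' ^ n) * (A' ^ n)⁻¹ = x := by group
    rw [e] at h2
    exact h'.mono (by omega) h2
  have := h.strict' (hle (j0 - l + 1).toNat)
  have := Int.self_le_toNat (j0 - l + 1)
  omega

theorem E.comp {F G : Type*} [Group F] [Group G] {χ : F → ℤ} (h : E χ) (α : G ≃* F) :
    E (fun x => χ (α x)) := by
  obtain ⟨A, B, h⟩ := h
  refine ⟨α.symm A, fun i => (B i).comap α.toMonoidHom, ?_⟩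
  constructor
  · exact h.chr.comp α.toMonoidHom
  · simp [h.hA]
  · intro i x hx
    exact h.anti i hx
  · intro i x hx
    exact h.ker i _ hx
  · intro i
    have : (B i).comap α.toMonoidHom = (B i).map α.symm.toMonoidHom := by
      ext x
      simp only [Subgroup.mem_comap, Subgroup.mem_map]
      constructor
      · intro hx
        exact ⟨α x, hx, by simp⟩
      · rintro ⟨y, hy, rfl⟩
        simpa using hy
    rw [this]
    exact fg_map (h.fg i) _
  · intro i x
    have := h.conj i (α x)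
    simp only [Subgroup.mem_comap, MulEquiv.toMonoidHom_eq_coe, MonoidHom.coe_coe, map_mul,
      MulEquiv.apply_symm_apply, map_inv]
    exact this
  · intro x hx
    obtain ⟨i, hi⟩ := h.union _ hx
    exact ⟨i, hi⟩
  · intro i hi
    apply h.strict i
    intro x hx
    have h1 : α.symm x ∈ (B i).comap α.toMonoidHom := by simpa using hx
    have h2 := hi h1
    simpa using h2
  · intro i
    obtain ⟨g, hg, hgc⟩ := h.comm i
    refine ⟨α.symm g, by simpa using hg, ?_⟩
    intro x hx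
    apply α.injective
    simp only [map_mul, MulEquiv.apply_symm_apply]
    exact hgc _ hx

/-- The displacement lemma. -/
theorem ED.displ {F : Type*} [Group F] {χ : F → ℤ} {A : F} {B : ℤ → Subgroup F} (h : ED χ A B)
    (α : F ≃* F) (hα : ∀ x, χ (α x) = χ x) :
    ∃ m : ℕ, ∀ i ≤ 0, ∀ x ∈ B i, α x ∈ B (i - m) := by
  obtain ⟨j1, hj1⟩ := h.exists_le ((B 0).map α.toMonoidHom) (fg_map (h.fg 0) _) (by
    rintro y ⟨x, hx, rfl⟩
    have := hα x
    simp only [MulEquiv.toMonoidHom_eq_coe, MonoidHom.coe_coe]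
    rw [this, h.ker 0 x hx])
  obtain ⟨j0, hj0⟩ := h.shift (α A)
  rw [hα, h.hA] at hj0
  -- a common bound
  obtain ⟨j, hjj1, hjj0, hj0'⟩ : ∃ j : ℤ, j ≤ j1 ∧ j ≤ j0 ∧ j ≤ 0 :=
    ⟨min j1 (min j0 0), by omega, by omega, by omega⟩
  have hp : ∀ n : ℕ, ∀ y ∈ B j, (α A ^ n)⁻¹ * y * α A ^ n ∈ B (j - n) := by
    intro n
    induction n with
    | zero => intro y hy; simpa using hy
    | succ n ih =>
      intro y hy
      have h1 := ih y hy
      have e : (α A ^ (n + 1))⁻¹ * y * α A ^ (n + 1)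
          = (α A)⁻¹ * ((α A ^ n)⁻¹ * y * α A ^ n) * α A := by
        rw [pow_succ]; group
      rw [e, hj0 _ (by push_cast; omega)]
      have e2 : α A * ((α A)⁻¹ * ((α A ^ n)⁻¹ * y * α A ^ n) * α A) * (α A)⁻¹
          = (α A ^ n)⁻¹ * y * α A ^ n := by group
      rw [e2]
      convert h1 using 2
      push_cast; ring
  refine ⟨j.natAbs, fun i hi x hx => ?_⟩
  obtain ⟨n, rfl⟩ : ∃ n : ℕ, i = -(n : ℤ) := ⟨i.natAbs, by omega⟩
  have h1 := (h.conj_pow n _ x).1 hx
  rw [neg_add_cancel] at h1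
  have h2 : α (A ^ n * x * (A ^ n)⁻¹) ∈ B j := h.mono hjj1 (hj1 ⟨_, h1, rfl⟩)
  have h3 := hp n _ h2
  have e : (α A ^ n)⁻¹ * α (A ^ n * x * (A ^ n)⁻¹) * α A ^ n = α x := by
    simp only [map_mul, map_pow, map_inv]; group
  rw [e] at h3
  exact h.mono (by omega) h3

/-- Displacement at most `m`. -/
def Dis {F : Type*} [Group F] (B : ℤ → Subgroup F) (α : MulAut F) (m : ℕ) : Prop :=
  ∀ i ≤ 0, ∀ x ∈ B i, α x ∈ B (i - m)

theorem Dis.mul {F : Type*} [Group F] {B : ℤ → Subgroup F} {α β : MulAut F} {m n : ℕ}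
    (ha : Dis B α m) (hb : Dis B β n) : Dis B (α * β) (m + n) := by
  intro i hi x hx
  have h1 := hb i hi x hx
  have h2 := ha (i - n) (by omega) _ h1
  rw [MulAut.mul_apply]
  convert h2 using 2
  push_cast; ring

theorem Dis.pow {F : Type*} [Group F] {B : ℤ → Subgroup F} {α : MulAut F} {m : ℕ}
    (ha : Dis B α m) (k : ℕ) : Dis B (α ^ k) (k * m) := by
  induction k with
  | zero =>
    intro i hi x hx
    simpa using hx
  | succ k ih =>
    rw [pow_succ, Nat.succ_mul]
    exact ih.mul ha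

section H
variable {H F : Type*} [Group H] [Group F] (e : commutator H ≃* F)

/-- The action of `H` on `F`. -/
def act : H →* MulAut F := (MulAut.congr e).toMonoidHom.comp MulAut.conjNormal

theorem act_apply (h : H) (x : F) : act e h x = e (MulAut.conjNormal h (e.symm x)) := rfl

theorem act_coe (n : commutator H) (x : F) : act e (n : H) x = e n * x * (e n)⁻¹ := by
  rw [act_apply]
  have : MulAut.conjNormal (n : H) (e.symm x) = n * e.symm x * n⁻¹ := by
    ext
    simp [MulAut.conjNormal_apply]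
  rw [this]
  simp

/-- The commutator of two elements of `H`, as an element of `F`. -/
def cm (g h : H) : F := e ⟨⁅g, h⁆, commutator_mem_commutator (mem_top g) (mem_top h)⟩

theorem cm_swap (g h : H) : cm e h g = (cm e g h)⁻¹ := by
  unfold cm
  rw [← map_inv]
  congr 1
  ext
  simp [commutatorElement_inv]

theorem act_cm (g h : H) (x : F) : (act e g * act e h * (act e g)⁻¹ * (act e h)⁻¹) x
    = cm e g h * x * (cm e g h)⁻¹ := by
  have h1 := act_coe e ⟨⁅g, h⁆, commutator_mem_commutator (mem_top g) (mem_top h)⟩ x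
  rw [← cm] at h1
  rw [← h1]
  simp only [commutatorElement_def, map_mul, map_inv]

theorem cm_mul (g g' h : H) : cm e (g * g') h = act e g (cm e g' h) * cm e g h := by
  unfold cm
  rw [act_apply, ← map_mul]
  congr 1
  ext
  simp [MulAut.conjNormal_apply, commutatorElement_def]
  group

variable {ψ : F → ℤ} (hψ : IsChr ψ)
include hψ

theorem bil_left (g g' h : H) (inv : ∀ x, ψ (act e g x) = ψ x) :
    ψ (cm e (g * g') h) = ψ (cm e g h) + ψ (cm e g' h) := by
  rw [cm_mul, hψ, inv]; ring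

theorem bil_swap (g h : H) : ψ (cm e h g) = - ψ (cm e g h) := by
  rw [cm_swap, hψ.inv]

theorem bil_pow_left (g h : H) (inv : ∀ x, ψ (act e g x) = ψ x) (k : ℕ) :
    ψ (cm e (g ^ k) h) = k * ψ (cm e g h) := by
  induction k with
  | zero =>
    have : cm e (g ^ 0) h = 1 := by
      unfold cm
      have : (⟨⁅g ^ 0, h⁆, commutator_mem_commutator (mem_top _) (mem_top h)⟩ : commutator H) = 1 := by
        ext; simp
      rw [this]; simp
    rw [this, hψ.one]; simp
  | succ k ih =>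
    rw [pow_succ', bil_left e hψ g (g ^ k) h inv, ih]; push_cast; ring

theorem bil_pow (g h : H) (ig : ∀ x, ψ (act e g x) = ψ x) (ih : ∀ x, ψ (act e h x) = ψ x)
    (k : ℕ) : ψ (cm e (g ^ k) (h ^ k)) = k * (k * ψ (cm e g h)) := by
  rw [bil_pow_left e hψ g (h ^ k) ig, bil_swap e hψ (h ^ k) g, bil_pow_left e hψ h g ih,
    bil_swap e hψ g h]
  ring

omit hψ in
theorem cm_nonneg {χ : F → ℤ} {A : F} {B : ℤ → Subgroup F} (hχ : ED χ A B) (g h : H)
    (ig : ∀ x, χ (act e g x) = χ x) (ih : ∀ x, χ (act e h x) = χ x) : 0 ≤ χ (cm e g h) := by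
  have inv' : ∀ g, (∀ x, χ (act e g x) = χ x) → ∀ x, χ ((act e g)⁻¹ x) = χ x := by
    intro g hg x
    have := hg ((act e g)⁻¹ x)
    rw [← MulAut.mul_apply, mul_inv_cancel] at this
    simpa using this.symm
  obtain ⟨m1, h1⟩ := hχ.displ (act e g) ig
  obtain ⟨m2, h2⟩ := hχ.displ (act e h) ih
  obtain ⟨m3, h3⟩ := hχ.displ (act e g)⁻¹ (inv' g ig)
  obtain ⟨m4, h4⟩ := hχ.displ (act e h)⁻¹ (inv' h ih)
  have h1 : Dis B (act e g) m1 := h1
  have h2 : Dis B (act e h) m2 := h2
  have h3 : Dis B (act e g)⁻¹ m3 := h3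
  have h4 : Dis B (act e h)⁻¹ m4 := h4
  by_contra hneg
  push Not at hneg
  set n := χ (cm e g h) with hn
  obtain ⟨k, hk⟩ : ∃ k : ℕ, k = m1 + m2 + m3 + m4 + 1 := ⟨_, rfl⟩
  have hd : Dis B (act e (g ^ k) * act e (h ^ k) * (act e (g ^ k))⁻¹ * (act e (h ^ k))⁻¹)
      (k * m1 + k * m2 + k * m3 + k * m4) := by
    simp only [map_pow, ← inv_pow]
    exact (((h1.pow k).mul (h2.pow k)).mul (h3.pow k)).mul (h4.pow k)
  have hv : χ (cm e (g ^ k) (h ^ k)) = k * (k * n) := bil_pow e hχ.chr g h ig ih k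
  obtain ⟨j, hj⟩ := hχ.shift (cm e (g ^ k) (h ^ k))
  rw [hv] at hj
  obtain ⟨i, hij, hi0⟩ : ∃ i : ℤ, i ≤ j ∧ i ≤ 0 := ⟨min j 0, by omega, by omega⟩
  have hle : B (i + k * (k * n)) ≤ B (i - ((k * m1 + k * m2 + k * m3 + k * m4 : ℕ) : ℤ)) := by
    intro y hy
    set v := cm e (g ^ k) (h ^ k) with hvdef
    have e1 : v * (v⁻¹ * y * v) * v⁻¹ = y := by group
    have hx : v⁻¹ * y * v ∈ B i := by
      rw [hj i hij, e1]; exact hy
    have h5 := hd i hi0 _ hx
    rw [act_cm, ← hvdef, e1] at h5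
    exact h5
  have := hχ.strict' hle
  have hkpos : (0 : ℤ) < k := by rw [hk]; positivity
  have h6 : (k : ℤ) * (-(k * n)) ≤ k * (m1 + m2 + m3 + m4) := by
    push_cast at this
    nlinarith
  have h7 : -((k : ℤ) * n) ≤ m1 + m2 + m3 + m4 := le_of_mul_le_mul_left h6 hkpos
  have h8 : (k : ℤ) ≤ -((k : ℤ) * n) := by nlinarith
  rw [hk] at h8 h7
  push_cast at h8 h7
  linarith

omit hψ in
theorem cm_zero {χ : F → ℤ} (hE : E χ) (g h : H)
    (ig : ∀ x, χ (act e g x) = χ x) (ih : ∀ x, χ (act e h x) = χ x) : χ (cm e g h) = 0 := by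
  obtain ⟨A, B, hχ⟩ := hE
  have h1 := cm_nonneg e hχ g h ig ih
  have h2 := cm_nonneg e hχ h g ih ig
  rw [bil_swap e hχ.chr] at h2
  linarith

omit hψ in
include e in
/-- **The obstruction.**  Suppose `χ₁, χ₂` admit end data and every automorphism of `F` preserves
or swaps them.  If `F` is a derived subgroup then `χ₁ + χ₂ = 0`. -/
theorem obstruction {χ₁ χ₂ : F → ℤ} (h1 : E χ₁) (h2 : E χ₂)
    (hperm : ∀ α : MulAut F, ((∀ x, χ₁ (α x) = χ₁ x) ∧ (∀ x, χ₂ (α x) = χ₂ x)) ∨
      ((∀ x, χ₁ (α x) = χ₂ x) ∧ (∀ x, χ₂ (α x) = χ₁ x))) (x : F) : χ₁ x + χ₂ x = 0 := by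
  have c1 : IsChr χ₁ := by obtain ⟨_, _, h⟩ := h1; exact h.chr
  have c2 : IsChr χ₂ := by obtain ⟨_, _, h⟩ := h2; exact h.chr
  have c : IsChr (fun x => χ₁ x + χ₂ x) := by
    intro x y
    simp only [c1 x y, c2 x y]; ring
  have inv : ∀ g : H, ∀ x, (fun x => χ₁ x + χ₂ x) (act e g x) = (fun x => χ₁ x + χ₂ x) x := by
    intro g x
    rcases hperm (act e g) with ⟨ha, hb⟩ | ⟨ha, hb⟩
    · simp only [ha, hb]
    · simp only [ha, hb]; ring
  have sq1 : ∀ g : H, ∀ x, χ₁ (act e (g ^ 2) x) = χ₁ x := by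
    intro g x
    rw [map_pow, pow_two, MulAut.mul_apply]
    rcases hperm (act e g) with ⟨ha, hb⟩ | ⟨ha, hb⟩
    · rw [ha, ha]
    · rw [ha, hb]
  have sq2 : ∀ g : H, ∀ x, χ₂ (act e (g ^ 2) x) = χ₂ x := by
    intro g x
    rw [map_pow, pow_two, MulAut.mul_apply]
    rcases hperm (act e g) with ⟨ha, hb⟩ | ⟨ha, hb⟩
    · rw [hb, hb]
    · rw [hb, ha]
  have key : ∀ g h : H, χ₁ (cm e g h) + χ₂ (cm e g h) = 0 := by
    intro g h
    have e1 := cm_zero e h1 (g ^ 2) (h ^ 2) (sq1 g) (sq1 h)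
    have e2 := cm_zero e h2 (g ^ 2) (h ^ 2) (sq2 g) (sq2 h)
    have e3 := bil_pow e c g h (inv g) (inv h) 2
    simp only [e1, e2] at e3
    push_cast at e3
    linarith
  -- the commutators generate
  obtain ⟨n, rfl⟩ := e.surjective x
  obtain ⟨n, hn⟩ := n
  have hn' := hn
  rw [commutator_eq_closure] at hn'
  induction hn' using Subgroup.closure_induction with
  | mem y hy =>
    obtain ⟨g, h, rfl⟩ := hy
    exact key g h
  | one =>
    have : (⟨1, hn⟩ : commutator H) = 1 := rfl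
    rw [this, map_one]
    exact c.one
  | mul y z hy hz ihy ihz =>
    have hy' : y ∈ commutator H := by rw [commutator_eq_closure]; exact hy
    have hz' : z ∈ commutator H := by rw [commutator_eq_closure]; exact hz
    have : (⟨y * z, hn⟩ : commutator H) = ⟨y, hy'⟩ * ⟨z, hz'⟩ := rfl
    rw [this, map_mul]
    have := c (e ⟨y, hy'⟩) (e ⟨z, hz'⟩)
    simp only at this
    rw [this, ihy, ihz]; ring
  | inv y hy ihy =>
    have hy' : y ∈ commutator H := by rw [commutator_eq_closure]; exact hy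
    have : (⟨y⁻¹, hn⟩ : commutator H) = (⟨y, hy'⟩ : commutator H)⁻¹ := rfl
    rw [this, map_inv]
    have := c.inv (e ⟨y, hy'⟩)
    rw [this, ihy]; ring

end H

end Q151.Thom
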