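import Mathlib.GroupTheory.PresentedGroup
import Pool.Agent.Q151.Thom.Abs

/-!
Thompson's group `F` by its two-generator, two-relator presentation, and consequences of the
relations.
-/

namespace Q151.Thom

/-- The commutator `[u, v] = u⁻¹ v⁻¹ u v`. -/
def cmt {G : Type*} [Group G] (u v : G) : G := u⁻¹ * v⁻¹ * u * v

/-- The relators `[x₀x₁⁻¹, x₀⁻¹x₁x₀]` and `[x₀x₁⁻¹, x₀⁻²x₁x₀²]`, with `x₀ = of 0`, `x₁ = of 1`. -/
def rels : Set (FreeGroup (Fin 2)) :=
  {cmt (FreeGroup.of 0 * (FreeGroup.of 1)⁻¹) ((FreeGroup.of 0)⁻¹ * FreeGroup.of 1 * FreeGroup.of 0),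
   cmt (FreeGroup.of 0 * (FreeGroup.of 1)⁻¹)
    ((FreeGroup.of 0 ^ 2)⁻¹ * FreeGroup.of 1 * FreeGroup.of 0 ^ 2)}

/-- **Thompson's group `F`**. -/
abbrev ThompsonF : Type := PresentedGroup rels

theorem cmt_eq_one {G : Type*} [Group G] (u v : G) : cmt u v = 1 ↔ Commute u v := by
  unfold cmt
  constructor
  · intro h
    have h1 : u * v = v * u * (u⁻¹ * v⁻¹ * u * v) := by group
    rw [h, mul_one] at h1
    exact h1
  · intro h
    have h1 : u⁻¹ * v⁻¹ * u * v = (v * u)⁻¹ * (u * v) := by group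
    rw [h1, h.eq]; group

/-- `a` and `b` satisfy the relations of the inverses of the generators. -/
structure R {G : Type*} [Group G] (a b : G) : Prop where
  r1 : Commute (a⁻¹ * b) (a * b * a⁻¹)
  r2 : Commute (a⁻¹ * b) (a ^ 2 * b * (a ^ 2)⁻¹)

/-- The inverses of the generators. -/
def ga : ThompsonF := (PresentedGroup.of 0)⁻¹
def gb : ThompsonF := (PresentedGroup.of 1)⁻¹

theorem R_gen : R ga gb := by
  have h1 : cmt (PresentedGroup.of 0 * (PresentedGroup.of 1)⁻¹ : ThompsonF)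
      ((PresentedGroup.of 0)⁻¹ * PresentedGroup.of 1 * PresentedGroup.of 0) = 1 :=
    PresentedGroup.one_of_mem (rels := rels) (Or.inl rfl)
  have h2 : cmt (PresentedGroup.of 0 * (PresentedGroup.of 1)⁻¹ : ThompsonF)
      ((PresentedGroup.of 0 ^ 2)⁻¹ * PresentedGroup.of 1 * PresentedGroup.of 0 ^ 2) = 1 :=
    PresentedGroup.one_of_mem (rels := rels) (Or.inr rfl)
  rw [cmt_eq_one] at h1 h2
  constructor
  · have := h1.inv_right
    have e : ((PresentedGroup.of 0)⁻¹ * PresentedGroup.of 1 * PresentedGroup.of 0 : ThompsonF)⁻¹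
      = ga * gb * ga⁻¹ := by unfold ga gb; group
    rw [e] at this
    have e' : (PresentedGroup.of 0 * (PresentedGroup.of 1)⁻¹ : ThompsonF) = ga⁻¹ * gb := by
      unfold ga gb; group
    rwa [e'] at this
  · have := h2.inv_right
    have e : ((PresentedGroup.of 0 ^ 2)⁻¹ * PresentedGroup.of 1 * PresentedGroup.of 0 ^ 2
        : ThompsonF)⁻¹ = ga ^ 2 * gb * (ga ^ 2)⁻¹ := by unfold ga gb; group
    rw [e] at this
    have e' : (PresentedGroup.of 0 * (PresentedGroup.of 1)⁻¹ : ThompsonF) = ga⁻¹ * gb := by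
      unfold ga gb; group
    rwa [e'] at this

section lift
variable {G : Type*} [Group G] {a b : G}

theorem lift_rels (h : R a b) : ∀ r ∈ rels, FreeGroup.lift ![a⁻¹, b⁻¹] r = 1 := by
  intro r hr
  rcases hr with rfl | rfl
  · have : FreeGroup.lift ![a⁻¹, b⁻¹] (cmt (FreeGroup.of 0 * (FreeGroup.of 1)⁻¹)
      ((FreeGroup.of 0)⁻¹ * FreeGroup.of 1 * FreeGroup.of 0))
      = cmt (a⁻¹ * b) (a * b * a⁻¹)⁻¹ := by
      simp [cmt, mul_assoc]
    rw [this, cmt_eq_one]
    exact h.r1.inv_right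
  · have : FreeGroup.lift ![a⁻¹, b⁻¹] (cmt (FreeGroup.of 0 * (FreeGroup.of 1)⁻¹)
      ((FreeGroup.of 0 ^ 2)⁻¹ * FreeGroup.of 1 * FreeGroup.of 0 ^ 2))
      = cmt (a⁻¹ * b) (a ^ 2 * b * (a ^ 2)⁻¹)⁻¹ := by
      simp [cmt, mul_assoc]
    rw [this, cmt_eq_one]
    exact h.r2.inv_right

/-- The homomorphism out of `F` given by a pair satisfying the relations. -/
def lift (h : R a b) : ThompsonF →* G := PresentedGroup.toGroup (lift_rels h)

theorem lift_ga (h : R a b) : lift h ga = a := by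
  have : lift h (PresentedGroup.of 0) = a⁻¹ := by
    unfold lift
    rw [PresentedGroup.toGroup.of]; rfl
  unfold ga
  rw [map_inv, this, inv_inv]

theorem lift_gb (h : R a b) : lift h gb = b := by
  have : lift h (PresentedGroup.of 1) = b⁻¹ := by
    unfold lift
    rw [PresentedGroup.toGroup.of]; rfl
  unfold gb
  rw [map_inv, this, inv_inv]

end lift

/-- Induction on `F`. -/
theorem F_induction {P : ThompsonF → Prop} (one : P 1) (ha : P ga) (hb : P gb)
    (mul : ∀ x y, P x → P y → P (x * y)) (inv : ∀ x, P x → P x⁻¹) (x : ThompsonF) : P x := by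
  have hx : x ∈ Subgroup.closure (Set.range (PresentedGroup.of (rels := rels))) := by
    rw [PresentedGroup.closure_range_of]; trivial
  induction hx using Subgroup.closure_induction with
  | mem y hy =>
    obtain ⟨i, rfl⟩ := hy
    fin_cases i
    · have := inv _ ha
      simpa [ga] using this
    · have := inv _ hb
      simpa [gb] using this
  | one => exact one
  | mul y z _ _ hy hz => exact mul _ _ hy hz
  | inv y _ hy => exact inv _ hy

section rel
variable {G : Type*} [Group G] (a b : G)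

/-- `b_k = a^k b a^{-k}`. -/
def bb (k : ℤ) : G := a ^ k * b * (a ^ k)⁻¹

/-- `y_k = a^k (a b⁻¹) a^{-k}`. -/
def yy (k : ℤ) : G := a ^ k * (a * b⁻¹) * (a ^ k)⁻¹

theorem bb_conj (i k : ℤ) : a ^ i * bb a b k * (a ^ i)⁻¹ = bb a b (k + i) := by
  unfold bb
  rw [add_comm, zpow_add]; group

theorem yy_conj (i k : ℤ) : a ^ i * yy a b k * (a ^ i)⁻¹ = yy a b (k + i) := by
  unfold yy
  rw [add_comm, zpow_add]; group

variable {a b} (h : R a b)
include h

theorem R.step {n : ℕ} (hn : Commute (a⁻¹ * b) (bb a b (n + 1))) :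
    b * bb a b (n + 1) * b⁻¹ = bb a b (n + 2) := by
  have h1 : bb a b (n + 2) = a * bb a b (n + 1) * a⁻¹ := by
    have := bb_conj a b 1 (n + 1)
    rw [zpow_one] at this
    rw [this]; congr 1
  rw [h1]
  have h2 := hn.eq
  have h3 : b * bb a b (n + 1) * b⁻¹ = a * ((a⁻¹ * b) * bb a b (n + 1)) * b⁻¹ := by group
  rw [h3, h2]; group

theorem R.comm_w (n : ℕ) : Commute (a⁻¹ * b) (bb a b (n + 1)) := by
  induction n using Nat.strong_induction_on with
  | _ n ih =>
    rcases n with _ | _ | n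
    · have e : bb a b ((0 : ℕ) + 1) = a * b * a⁻¹ := by simp [bb]
      rw [e]; exact h.r1
    · have e : bb a b ((0 + 1 : ℕ) + 1) = a ^ 2 * b * (a ^ 2)⁻¹ := by
        unfold bb; norm_num
      rw [e]; exact h.r2
    · have h1 := h.step (ih (n) (by omega))
      have h2 : bb a b ((n + 1 + 1 : ℕ) + 1) = bb a b 1 * bb a b (n + 2) * (bb a b 1)⁻¹ := by
        have e1 : bb a b ((n + 1 + 1 : ℕ) + 1) = a * bb a b (n + 2) * a⁻¹ := by
          have := bb_conj a b 1 (n + 2)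
          rw [zpow_one] at this
          rw [this]; push_cast; congr 1
        have e2 : bb a b (n + 2) = a * bb a b (n + 1) * a⁻¹ := by
          have := bb_conj a b 1 (n + 1)
          rw [zpow_one] at this
          rw [this]; congr 1
        have e3 : bb a b 1 = a * b * a⁻¹ := by simp [bb]
        calc bb a b ((n + 1 + 1 : ℕ) + 1) = a * bb a b (n + 2) * a⁻¹ := e1
          _ = a * (b * bb a b (n + 1) * b⁻¹) * a⁻¹ := by rw [h1]
          _ = (a * b * a⁻¹) * (a * bb a b (n + 1) * a⁻¹) * (a * b * a⁻¹)⁻¹ := by group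
          _ = _ := by rw [← e2, ← e3]
      rw [h2]
      have c1 := ih 0 (by omega)
      have c2 := ih (n + 1) (by omega)
      have e1 : bb a b ((0 : ℕ) + 1) = bb a b 1 := by norm_num
      rw [e1] at c1
      have e2 : bb a b ((n + 1 : ℕ) + 1) = bb a b (n + 2) := by push_cast; congr 1
      rw [e2] at c2
      exact (c1.mul_right c2).mul_right c1.inv_right

theorem R.bb_rel {i j : ℤ} (hij : i + 1 ≤ j) :
    bb a b i * bb a b j * (bb a b i)⁻¹ = bb a b (j + 1) := by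
  obtain ⟨n, rfl⟩ := Int.le.dest hij
  have h1 := h.step (h.comm_w n)
  have h2 := bb_conj a b i (n + 2)
  rw [← h1] at h2
  have e1 : bb a b (i + 1 + n) = a ^ i * bb a b (n + 1) * (a ^ i)⁻¹ := by
    rw [bb_conj]; congr 1; ring
  have e2 : bb a b (i + 1 + n + 1) = bb a b ((n : ℤ) + 2 + i) := by congr 1; ring
  rw [e2, ← h2, e1]
  unfold bb
  group

theorem R.comm_y {i j : ℤ} (hij : j + 2 ≤ i) : Commute (yy a b j) (bb a b i) := by
  obtain ⟨n, rfl⟩ := Int.le.dest hij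
  have h1 := h.comm_w n
  have e1 : bb a b (j + 2 + n) = a ^ (j + 1) * bb a b (n + 1) * (a ^ (j + 1))⁻¹ := by
    rw [bb_conj]; congr 1; ring
  have e2 : yy a b j = a ^ (j + 1) * (a⁻¹ * b)⁻¹ * (a ^ (j + 1))⁻¹ := by
    unfold yy
    rw [zpow_add, zpow_one]; group
  rw [e1, e2]
  have := h1.inv_left.eq
  show a ^ (j + 1) * (a⁻¹ * b)⁻¹ * (a ^ (j + 1))⁻¹ *
    (a ^ (j + 1) * bb a b (n + 1) * (a ^ (j + 1))⁻¹) =
    a ^ (j + 1) * bb a b (n + 1) * (a ^ (j + 1))⁻¹ *
    (a ^ (j + 1) * (a⁻¹ * b)⁻¹ * (a ^ (j + 1))⁻¹)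
  have l : a ^ (j + 1) * (a⁻¹ * b)⁻¹ * (a ^ (j + 1))⁻¹ *
    (a ^ (j + 1) * bb a b (n + 1) * (a ^ (j + 1))⁻¹) =
    a ^ (j + 1) * ((a⁻¹ * b)⁻¹ * bb a b (n + 1)) * (a ^ (j + 1))⁻¹ := by group
  have r : a ^ (j + 1) * bb a b (n + 1) * (a ^ (j + 1))⁻¹ *
    (a ^ (j + 1) * (a⁻¹ * b)⁻¹ * (a ^ (j + 1))⁻¹) =
    a ^ (j + 1) * (bb a b (n + 1) * (a⁻¹ * b)⁻¹) * (a ^ (j + 1))⁻¹ := by group
  rw [l, r, this]

/-- The relations for the mirrored pair `(a⁻¹, (a b⁻¹)⁻¹)`. -/
theorem R.mirror : R a⁻¹ (b * a⁻¹) := by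
  have e0 : a⁻¹⁻¹ * (b * a⁻¹) = bb a b 1 := by simp [bb, mul_assoc]
  constructor
  · rw [e0]
    have e1 : a⁻¹ * (b * a⁻¹) * a⁻¹⁻¹ = (yy a b (-1))⁻¹ := by
      unfold yy; group
    rw [e1]
    exact (h.comm_y (i := 1) (j := -1) (by norm_num)).symm.inv_right
  · rw [e0]
    have e1 : a⁻¹ ^ 2 * (b * a⁻¹) * (a⁻¹ ^ 2)⁻¹ = (yy a b (-2))⁻¹ := by
      unfold yy; group
    rw [e1]
    exact (h.comm_y (i := 1) (j := -2) (by norm_num)).symm.inv_right

end rel

/-- The mirror automorphism of `F` as an endomorphism. -/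
def thetaHom : ThompsonF →* ThompsonF := lift R_gen.mirror

theorem theta_ga : thetaHom ga = ga⁻¹ := lift_ga _
theorem theta_gb : thetaHom gb = gb * ga⁻¹ := lift_gb _

theorem theta_theta (x : ThompsonF) : thetaHom (thetaHom x) = x := by
  induction x using F_induction with
  | one => simp
  | ha => rw [theta_ga, map_inv, theta_ga, inv_inv]
  | hb => rw [theta_gb, map_mul, map_inv, theta_ga, theta_gb]; group
  | mul x y hx hy => rw [map_mul, map_mul, hx, hy]
  | inv x hx => rw [map_inv, map_inv, hx]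

/-- The mirror automorphism of `F`. -/
def theta : ThompsonF ≃* ThompsonF :=
  { thetaHom with
    invFun := thetaHom
    left_inv := theta_theta
    right_inv := theta_theta }

theorem theta_apply (x : ThompsonF) : theta x = thetaHom x := rfl

/-! ### Characters -/

theorem R_mult : R (Multiplicative.ofAdd (1 : ℤ)) (Multiplicative.ofAdd (0 : ℤ)) :=
  ⟨Commute.all _ _, Commute.all _ _⟩

/-- The character `χ₁` with `χ₁ a = 1`, `χ₁ b = 0`. -/
def chi1 (x : ThompsonF) : ℤ := Multiplicative.toAdd (lift R_mult x)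

/-- The character `χ₂ = χ₁ ∘ θ`. -/
def chi2 (x : ThompsonF) : ℤ := chi1 (theta x)

theorem chi1_chr : IsChr chi1 := by
  intro x y
  unfold chi1
  rw [map_mul, toAdd_mul]

theorem chi2_chr : IsChr chi2 := chi1_chr.comp theta.toMonoidHom

theorem chi1_ga : chi1 ga = 1 := by
  unfold chi1; rw [lift_ga]; rfl

theorem chi1_gb : chi1 gb = 0 := by
  unfold chi1; rw [lift_gb]; rfl

theorem chi2_ga : chi2 ga = -1 := by
  unfold chi2
  rw [theta_apply, theta_ga, chi1_chr.inv, chi1_ga]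

theorem chi2_gb : chi2 gb = -1 := by
  unfold chi2
  rw [theta_apply, theta_gb, chi1_chr, chi1_chr.inv, chi1_ga, chi1_gb]; rfl

theorem chr_ext {χ χ' : ThompsonF → ℤ} (h : IsChr χ) (h' : IsChr χ') (ha : χ ga = χ' ga)
    (hb : χ gb = χ' gb) (x : ThompsonF) : χ x = χ' x := by
  induction x using F_induction with
  | one => rw [h.one, h'.one]
  | ha => exact ha
  | hb => exact hb
  | mul x y hx hy => rw [h, h', hx, hy]
  | inv x hx => rw [h.inv, h'.inv, hx]

theorem comb_chr (p q : ℤ) : IsChr (fun x => p * chi1 x + q * chi2 x) := by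
  intro x y
  simp only [chi1_chr x y, chi2_chr x y]; ring

theorem chr_eq {χ : ThompsonF → ℤ} (h : IsChr χ) :
    ∃ p q : ℤ, ∀ x, χ x = p * chi1 x + q * chi2 x := by
  refine ⟨χ ga - χ gb, - χ gb, chr_ext h (comb_chr _ _) ?_ ?_⟩
  · rw [chi1_ga, chi2_ga]; ring
  · rw [chi1_gb, chi2_gb]; ring

end Q151.Thom
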