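import Mathlib.Algebra.Order.Group.End
import Mathlib.Algebra.Order.Group.OrderIso
import Mathlib.Data.Rat.Cast.Order
import Pool.Agent.Q151.Thom.Pres

/-!
The action of Thompson's group `F` on the rational line and the two ends of `F`.
-/

namespace Q151.Thom

/-! ### The two generating homeomorphisms -/

/-- `x ↦ x + 1`. -/
def actA : ℚ ≃o ℚ := OrderIso.addRight 1

theorem actA_apply (x : ℚ) : actA x = x + 1 := rfl

theorem actBfun_mono : StrictMono (fun x : ℚ => max x (min (2 * x) (x + 1))) := by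
  intro x y hxy
  simp only
  rcases le_total x 0 with hx | hx
  · rcases le_total y 0 with hy | hy
    · rw [max_eq_left (by rw [min_eq_left (by linarith)]; linarith),
        max_eq_left (by rw [min_eq_left (by linarith)]; linarith)]
      exact hxy
    · rw [max_eq_left (by rw [min_eq_left (by linarith)]; linarith)]
      exact lt_of_lt_of_le hxy (le_max_left _ _)
  · refine lt_of_lt_of_le ?_ (le_max_right _ _)
    rw [max_lt_iff]
    have hy : 0 < y := by linarith
    refine ⟨lt_min (by linarith) (by linarith), min_lt_min (by linarith) (by linarith)⟩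

theorem actBfun_right (x : ℚ) : max (min x (max (x / 2) (x - 1)))
    (min (2 * (min x (max (x / 2) (x - 1)))) ((min x (max (x / 2) (x - 1))) + 1)) = x := by
  rcases le_total x 0 with hx | hx
  · have e : min x (max (x / 2) (x - 1)) = x := by
      apply min_eq_left
      exact le_max_of_le_left (by linarith)
    rw [e, min_eq_left (by linarith), max_eq_left (by linarith)]
  · rcases le_total x 2 with hx2 | hx2
    · have e : min x (max (x / 2) (x - 1)) = x / 2 := by
        rw [max_eq_left (by linarith), min_eq_right (by linarith)]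
      rw [e, min_eq_left (by linarith), max_eq_right (by linarith)]
      ring
    · have e : min x (max (x / 2) (x - 1)) = x - 1 := by
        rw [max_eq_right (by linarith), min_eq_right (by linarith)]
      rw [e, min_eq_right (by linarith), max_eq_right (by linarith)]
      ring

/-- `x ↦ x` for `x ≤ 0`, `2x` on `[0,1]`, `x + 1` for `x ≥ 1`. -/
def actB : ℚ ≃o ℚ :=
  StrictMono.orderIsoOfRightInverse (fun x : ℚ => max x (min (2 * x) (x + 1))) actBfun_mono
    (fun x : ℚ => min x (max (x / 2) (x - 1))) actBfun_right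

theorem actB_apply (x : ℚ) : actB x = max x (min (2 * x) (x + 1)) := rfl

theorem actB_nonpos {x : ℚ} (hx : x ≤ 0) : actB x = x := by
  rw [actB_apply, min_eq_left (by linarith), max_eq_left (by linarith)]

theorem actB_ge {x : ℚ} (hx : 1 ≤ x) : actB x = x + 1 := by
  rw [actB_apply, min_eq_right (by linarith), max_eq_right (by linarith)]

theorem actB_gt {x : ℚ} (hx : 0 < x) : x < actB x := by
  rw [actB_apply]
  exact lt_of_lt_of_le (lt_min (by linarith) (by linarith)) (le_max_right _ _)

theorem actB_lt {x : ℚ} (hx : x < 1) : actB x < x + 1 := by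
  rw [actB_apply]
  apply max_lt (by linarith)
  exact lt_of_le_of_lt (min_le_left _ _) (by linarith)

section gen
variable {f g : ℚ ≃o ℚ}

theorem commute_of {c : ℚ} (hf : ∀ x, c ≤ x → f x = x) (hg : ∀ x, x ≤ c → g x = x) :
    Commute f g := by
  apply RelIso.ext
  intro x
  rw [RelIso.mul_apply, RelIso.mul_apply]
  rcases le_total x c with hx | hx
  · rw [hg x hx]
    have : f x ≤ c := by
      rw [← hf c le_rfl]; exact f.monotone hx
    rw [hg _ this]
  · rw [hf x hx]
    have : c ≤ g x := by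
      rw [← hg c le_rfl]; exact g.monotone hx
    rw [hf _ this]

theorem inv_fix {x : ℚ} (h : f x = x) : f⁻¹ x = x := by
  conv_lhs => rw [← h]
  exact RelIso.inv_apply_self f x

theorem fix_pow {x : ℚ} (h : f x = x) (n : ℕ) : (f ^ n) x = x := by
  induction n with
  | zero => simp
  | succ n ih => rw [pow_succ, RelIso.mul_apply, h, ih]

theorem fix_zpow {x : ℚ} (h : f x = x) (n : ℤ) : (f ^ n) x = x := by
  cases n with
  | ofNat n => simpa using fix_pow h n
  | negSucc n =>
    rw [zpow_negSucc]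
    exact inv_fix (fix_pow h _)

theorem gt_pow {x : ℚ} (h : x < f x) (n : ℕ) : x < (f ^ (n + 1)) x := by
  induction n with
  | zero => simpa using h
  | succ n ih =>
    rw [pow_succ', RelIso.mul_apply]
    exact h.trans (f.strictMono ih)

theorem ne_zpow {x : ℚ} (h : x < f x) {p : ℤ} (hp : p ≠ 0) : (f ^ p) x ≠ x := by
  rcases lt_trichotomy p 0 with h0 | h0 | h0
  · obtain ⟨n, rfl⟩ : ∃ n : ℕ, p = -((n + 1 : ℕ) : ℤ) := ⟨p.natAbs - 1, by omega⟩
    intro hc
    rw [zpow_neg, zpow_natCast] at hc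
    have := inv_fix hc
    rw [inv_inv] at this
    exact (gt_pow h n).ne' this
  · exact absurd h0 hp
  · obtain ⟨n, rfl⟩ : ∃ n : ℕ, p = ((n + 1 : ℕ) : ℤ) := ⟨p.natAbs - 1, by omega⟩
    rw [zpow_natCast]
    exact (gt_pow h n).ne'

theorem tr_pow {c d : ℚ} (hd : 0 ≤ d) (h : ∀ x, c ≤ x → f x = x + d) (n : ℕ) :
    ∀ x, c ≤ x → (f ^ n) x = x + n * d := by
  induction n with
  | zero => intro x _; simp
  | succ n ih =>
    intro x hx
    have : c ≤ f x := by rw [h x hx]; linarith
    rw [pow_succ, RelIso.mul_apply, ih _ this, h x hx]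
    push_cast; ring

theorem tr_pow' {c d : ℚ} (hd : 0 ≤ d) (h : ∀ x, x ≤ c → f x = x - d) (n : ℕ) :
    ∀ x, x ≤ c → (f ^ n) x = x - n * d := by
  induction n with
  | zero => intro x _; simp
  | succ n ih =>
    intro x hx
    have : f x ≤ c := by rw [h x hx]; linarith
    rw [pow_succ, RelIso.mul_apply, ih _ this, h x hx]
    push_cast; ring

end gen

theorem actA_pow (n : ℕ) (x : ℚ) : (actA ^ n) x = x + n := by
  induction n generalizing x with
  | zero => simp
  | succ n ih => rw [pow_succ, RelIso.mul_apply, ih, actA_apply]; push_cast; ring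

theorem actA_zpow (n : ℤ) (x : ℚ) : (actA ^ n) x = x + n := by
  cases n with
  | ofNat n => simpa using actA_pow n x
  | negSucc n =>
    rw [zpow_negSucc]
    have h := actA_pow (n + 1) (x + (Int.negSucc n : ℤ))
    have e : x + ((Int.negSucc n : ℤ) : ℚ) + ((n + 1 : ℕ) : ℚ) = x := by
      rw [Int.negSucc_eq]; push_cast; ring
    rw [e] at h
    conv_lhs => rw [← h]
    exact RelIso.inv_apply_self _ _

theorem actA_zpow_inv (n : ℤ) (x : ℚ) : (actA ^ n)⁻¹ x = x - n := by
  rw [← zpow_neg, actA_zpow]; push_cast; ring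

theorem bb_apply (k : ℤ) (x : ℚ) : bb actA actB k x = actB (x - k) + k := by
  unfold bb
  rw [RelIso.mul_apply, RelIso.mul_apply, actA_zpow_inv, actA_zpow]

theorem yy_apply (k : ℤ) (x : ℚ) : yy actA actB k x = actB⁻¹ (x - k) + 1 + k := by
  unfold yy
  rw [RelIso.mul_apply, RelIso.mul_apply, RelIso.mul_apply, actA_zpow_inv, actA_zpow, actA_apply]

theorem bb_le {k : ℤ} {x : ℚ} (hx : x ≤ k) : bb actA actB k x = x := by
  rw [bb_apply, actB_nonpos (by linarith)]; ring

theorem bb_ge {k : ℤ} {x : ℚ} (hx : (k : ℚ) + 1 ≤ x) : bb actA actB k x = x + 1 := by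
  rw [bb_apply, actB_ge (by linarith)]; ring

theorem bb_gt {k : ℤ} {x : ℚ} (hx : (k : ℚ) < x) : x < bb actA actB k x := by
  rw [bb_apply]
  have := actB_gt (x := x - k) (by linarith)
  linarith

theorem yy_le {k : ℤ} {x : ℚ} (hx : x ≤ k) : yy actA actB k x = x + 1 := by
  rw [yy_apply, inv_fix (actB_nonpos (by linarith))]; ring

theorem yy_ge {k : ℤ} {x : ℚ} (hx : (k : ℚ) + 2 ≤ x) : yy actA actB k x = x := by
  rw [yy_apply]
  have h := actB_ge (x := x - k - 1) (by linarith)
  have e : x - k = actB (x - k - 1) := by rw [h]; ring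
  rw [e, RelIso.inv_apply_self]; ring

theorem yy_gt {k : ℤ} {x : ℚ} (hx : x < (k : ℚ) + 2) : x < yy actA actB k x := by
  rw [yy_apply]
  have h := actB_lt (x := x - k - 1) (by linarith)
  have h2 : actB⁻¹ (actB (x - k - 1)) < actB⁻¹ (x - k - 1 + 1) := (actB⁻¹).strictMono h
  rw [RelIso.inv_apply_self] at h2
  have e : x - k - 1 + 1 = x - k := by ring
  rw [e] at h2
  linarith

theorem R_act : R actA actB := by
  have h0 : ∀ x : ℚ, 1 ≤ x → (actA⁻¹ * actB) x = x := by
    intro x hx
    rw [RelIso.mul_apply, actB_ge hx, ← actA_apply, RelIso.inv_apply_self]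
  constructor
  · have e : actA * actB * actA⁻¹ = bb actA actB 1 := by simp [bb]
    rw [e]
    exact commute_of (c := 1) h0 (fun x hx => bb_le (by simpa using hx))
  · have e : actA ^ 2 * actB * (actA ^ 2)⁻¹ = bb actA actB 2 := by
      unfold bb; norm_cast
    rw [e]
    refine commute_of (c := 1) h0 (fun x hx => bb_le ?_)
    push_cast
    linarith

/-- The action of `F` on the rational line. -/
def Phi : ThompsonF →* (ℚ ≃o ℚ) := lift R_act

theorem Phi_ga : Phi ga = actA := lift_ga _
theorem Phi_gb : Phi gb = actB := lift_gb _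

theorem Phi_bb (k : ℤ) : Phi (bb ga gb k) = bb actA actB k := by
  unfold bb
  simp only [map_mul, map_inv, map_zpow, Phi_ga, Phi_gb]

theorem Phi_yy (k : ℤ) : Phi (yy ga gb k) = yy actA actB k := by
  unfold yy
  simp only [map_mul, map_inv, map_zpow, Phi_ga, Phi_gb]

/-- Germs at infinity. -/
theorem germ_top (g : ThompsonF) : ∃ M : ℚ, ∀ x, M ≤ x → Phi g x = x - chi2 g := by
  induction g using F_induction with
  | one => exact ⟨0, fun x _ => by rw [map_one, chi2_chr.one]; simp⟩
  | ha => exact ⟨0, fun x _ => by rw [Phi_ga, chi2_ga, actA_apply]; push_cast; ring⟩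
  | hb => exact ⟨1, fun x hx => by rw [Phi_gb, chi2_gb, actB_ge hx]; push_cast; ring⟩
  | mul g h hg hh =>
    obtain ⟨M, hM⟩ := hg
    obtain ⟨N, hN⟩ := hh
    refine ⟨max N (M + chi2 h), fun x hx => ?_⟩
    have h1 : N ≤ x := (le_max_left _ _).trans hx
    have h2 : M + chi2 h ≤ x := (le_max_right _ _).trans hx
    rw [map_mul, RelIso.mul_apply, hN x h1, hM _ (by linarith), chi2_chr]
    push_cast; ring
  | inv g hg =>
    obtain ⟨M, hM⟩ := hg
    refine ⟨M - chi2 g, fun x hx => ?_⟩
    have h1 := hM (x + chi2 g) (by linarith)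
    have e : x + chi2 g - chi2 g = x := by ring
    rw [e] at h1
    rw [map_inv, chi2_chr.inv]
    conv_lhs => rw [← h1]
    rw [RelIso.inv_apply_self]; push_cast; ring

theorem germ_bot (g : ThompsonF) : ∃ M : ℚ, ∀ x, x ≤ M → Phi g x = x + chi1 g := by
  induction g using F_induction with
  | one => exact ⟨0, fun x _ => by rw [map_one, chi1_chr.one]; simp⟩
  | ha => exact ⟨0, fun x _ => by rw [Phi_ga, chi1_ga, actA_apply]; push_cast; ring⟩
  | hb => exact ⟨0, fun x hx => by rw [Phi_gb, chi1_gb, actB_nonpos hx]; push_cast; ring⟩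
  | mul g h hg hh =>
    obtain ⟨M, hM⟩ := hg
    obtain ⟨N, hN⟩ := hh
    refine ⟨min N (M - chi1 h), fun x hx => ?_⟩
    have h1 : x ≤ N := hx.trans (min_le_left _ _)
    have h2 : x ≤ M - chi1 h := hx.trans (min_le_right _ _)
    rw [map_mul, RelIso.mul_apply, hN x h1, hM _ (by linarith), chi1_chr]
    push_cast; ring
  | inv g hg =>
    obtain ⟨M, hM⟩ := hg
    refine ⟨M + chi1 g, fun x hx => ?_⟩
    have h1 := hM (x - chi1 g) (by linarith)
    have e : x - chi1 g + chi1 g = x := by ring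
    rw [e] at h1
    rw [map_inv, chi1_chr.inv]
    conv_lhs => rw [← h1]
    rw [RelIso.inv_apply_self]; push_cast; ring

/-! ### The end data of `χ₁` -/

/-- The filtration. -/
def Bs (i : ℤ) : Subgroup ThompsonF := Subgroup.closure {bb ga gb i, bb ga gb (i + 1)}

theorem bb_mem (i : ℤ) : bb ga gb i ∈ Bs i := Subgroup.subset_closure (Or.inl rfl)
theorem bb_mem' (i : ℤ) : bb ga gb (i + 1) ∈ Bs i := Subgroup.subset_closure (Or.inr rfl)

theorem Bs_anti (i : ℤ) : Bs (i + 1) ≤ Bs i := by
  refine (Subgroup.closure_le _).2 ?_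
  rintro x (rfl | rfl)
  · exact bb_mem' i
  · show bb ga gb (i + 1 + 1) ∈ Bs i
    rw [← R_gen.bb_rel (i := i) (j := i + 1) le_rfl]
    exact mul_mem (mul_mem (bb_mem i) (bb_mem' i)) (inv_mem (bb_mem i))

theorem Bs_mono {i j : ℤ} (hij : i ≤ j) : Bs j ≤ Bs i := by
  obtain ⟨n, rfl⟩ := Int.le.dest hij
  induction n with
  | zero => simp
  | succ n ih =>
    refine le_trans ?_ (ih (by omega))
    have := Bs_anti (i + n)
    push_cast
    rw [← add_assoc]
    exact this

theorem Bs_conj (k i : ℤ) {x : ThompsonF} (hx : x ∈ Bs i) :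
    ga ^ k * x * (ga ^ k)⁻¹ ∈ Bs (i + k) := by
  unfold Bs at hx
  induction hx using Subgroup.closure_induction with
  | mem y hy =>
    rcases hy with rfl | rfl
    · rw [bb_conj]; exact bb_mem _
    · rw [bb_conj]
      have := bb_mem' (i + k)
      rwa [show i + k + 1 = i + 1 + k by ring] at this
  | one => simp
  | mul y z _ _ hy hz =>
    have e : ga ^ k * (y * z) * (ga ^ k)⁻¹
      = (ga ^ k * y * (ga ^ k)⁻¹) * (ga ^ k * z * (ga ^ k)⁻¹) := by group
    rw [e]; exact mul_mem hy hz
  | inv y _ hy =>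
    have e : ga ^ k * y⁻¹ * (ga ^ k)⁻¹ = (ga ^ k * y * (ga ^ k)⁻¹)⁻¹ := by group
    rw [e]; exact inv_mem hy

theorem chi1_bb (k : ℤ) : chi1 (bb ga gb k) = 0 := by
  unfold bb
  rw [chi1_chr.conj, chi1_gb]

theorem chi1_yy (k : ℤ) : chi1 (yy ga gb k) = 1 := by
  unfold yy
  rw [chi1_chr.conj, chi1_chr, chi1_chr.inv, chi1_ga, chi1_gb]; rfl

theorem chi2_bb (k : ℤ) : chi2 (bb ga gb k) = -1 := by
  unfold bb
  rw [chi2_chr.conj, chi2_gb]

theorem chi2_yy (k : ℤ) : chi2 (yy ga gb k) = 0 := by
  unfold yy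
  rw [chi2_chr.conj, chi2_chr, chi2_chr.inv, chi2_ga, chi2_gb]; rfl

theorem Bs_ker (i : ℤ) (x : ThompsonF) (hx : x ∈ Bs i) : chi1 x = 0 := by
  unfold Bs at hx
  induction hx using Subgroup.closure_induction with
  | mem y hy =>
    rcases hy with rfl | rfl
    · exact chi1_bb _
    · exact chi1_bb _
  | one => exact chi1_chr.one
  | mul y z _ _ hy hz => rw [chi1_chr, hy, hz]; rfl
  | inv y _ hy => rw [chi1_chr.inv, hy]; rfl

theorem Bs_fix (i : ℤ) (x : ThompsonF) (hx : x ∈ Bs i) : ∀ z : ℚ, z ≤ i → Phi x z = z := by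
  unfold Bs at hx
  induction hx using Subgroup.closure_induction with
  | mem y hy =>
    intro z hz
    rcases hy with rfl | rfl
    · rw [Phi_bb]; exact bb_le hz
    · rw [Phi_bb]; exact bb_le (by push_cast; linarith)
  | one => intro z _; simp
  | mul y z _ _ hy hz =>
    intro w hw
    rw [map_mul, RelIso.mul_apply, hz w hw, hy w hw]
  | inv y _ hy =>
    intro w hw
    rw [map_inv]; exact inv_fix (hy w hw)

theorem Bs_union (x : ThompsonF) : ∃ i, x * (ga ^ (chi1 x))⁻¹ ∈ Bs i := by
  induction x using F_induction with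
  | one => exact ⟨0, by rw [chi1_chr.one]; simp⟩
  | ha => exact ⟨0, by rw [chi1_ga]; simp⟩
  | hb =>
    refine ⟨0, ?_⟩
    rw [chi1_gb]
    have := bb_mem 0
    simpa [bb] using this
  | mul x y hx hy =>
    obtain ⟨i, hi⟩ := hx
    obtain ⟨j, hj⟩ := hy
    refine ⟨min i (j + chi1 x), ?_⟩
    have h1 := Bs_conj (chi1 x) j hj
    have e : x * y * (ga ^ chi1 (x * y))⁻¹ = (x * (ga ^ chi1 x)⁻¹) *
      (ga ^ chi1 x * (y * (ga ^ chi1 y)⁻¹) * (ga ^ chi1 x)⁻¹) := by
      rw [chi1_chr, add_comm, zpow_add]; group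
    rw [e]
    exact mul_mem (Bs_mono (min_le_left _ _) hi) (Bs_mono (min_le_right _ _) h1)
  | inv x hx =>
    obtain ⟨i, hi⟩ := hx
    refine ⟨i + -chi1 x, ?_⟩
    have h1 := inv_mem (Bs_conj (-chi1 x) i hi)
    have e : x⁻¹ * (ga ^ chi1 x⁻¹)⁻¹
      = (ga ^ (-chi1 x) * (x * (ga ^ chi1 x)⁻¹) * (ga ^ (-chi1 x))⁻¹)⁻¹ := by
      rw [chi1_chr.inv]; group
    rw [e]; exact h1

theorem ED1 : ED chi1 ga Bs where
  chr := chi1_chr
  hA := chi1_ga
  anti := Bs_anti
  ker := Bs_ker
  fg := fun i => by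
    classical
    exact ⟨{bb ga gb i, bb ga gb (i + 1)}, by simp [Bs]⟩
  conj := by
    intro i x
    constructor
    · intro hx
      have := Bs_conj 1 i hx
      simpa using this
    · intro hx
      have := Bs_conj (-1) (i + 1) hx
      have e : ga ^ (-1 : ℤ) * (ga * x * ga⁻¹) * (ga ^ (-1 : ℤ))⁻¹ = x := by group
      rw [e] at this
      simpa using this
  union := by
    intro x hx
    obtain ⟨i, hi⟩ := Bs_union x
    rw [hx] at hi
    exact ⟨i, by simpa using hi⟩
  strict := by
    intro i hi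
    have h1 := Bs_fix (i + 1) _ (hi (bb_mem i)) ((i : ℚ) + 1) (by push_cast; rfl)
    rw [Phi_bb] at h1
    have h2 := bb_gt (k := i) (x := (i : ℚ) + 1) (by linarith)
    linarith
  comm := by
    intro i
    refine ⟨yy ga gb (i - 2), by rw [chi1_yy]; norm_num, ?_⟩
    intro x hx
    unfold Bs at hx
    induction hx using Subgroup.closure_induction with
    | mem y hy =>
      rcases hy with rfl | rfl
      · exact (R_gen.comm_y (by omega)).eq
      · exact (R_gen.comm_y (by omega)).eq
    | one => simp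
    | mul y z _ _ hy hz =>
      exact (Commute.mul_right (show Commute _ y from hy) (show Commute _ z from hz)).eq
    | inv y _ hy => exact (Commute.inv_right (show Commute _ y from hy)).eq

theorem E1 : E chi1 := ⟨ga, Bs, ED1⟩
theorem E2 : E chi2 := E1.comp theta

end Q151.Thom
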