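import Pool.Agent.Q151.Thom.Act

/-!
Thompson's group `F` is not a derived subgroup.
-/

namespace Q151.Thom

section gen
variable {S g : ℚ ≃o ℚ}

theorem fix_top (hc : Commute g S) {c : ℚ} (h0 : S c = c) (h1 : ∀ x, c < x → S x ≠ x) :
    g c = c := by
  have key : ∀ g : ℚ ≃o ℚ, Commute g S → g c ≤ c := by
    intro g hc
    by_contra hlt
    push Not at hlt
    apply h1 _ hlt
    have : (g * S) c = (S * g) c := by rw [hc.eq]
    rw [RelIso.mul_apply, RelIso.mul_apply, h0] at this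
    exact this.symm
  refine le_antisymm (key g hc) ?_
  have h2 := g.monotone (key g⁻¹ hc.inv_left)
  rwa [RelIso.apply_inv_self] at h2

theorem fix_bot (hc : Commute g S) {c : ℚ} (h0 : S c = c) (h1 : ∀ x, x < c → S x ≠ x) :
    g c = c := by
  have key : ∀ g : ℚ ≃o ℚ, Commute g S → c ≤ g c := by
    intro g hc
    by_contra hlt
    push Not at hlt
    apply h1 _ hlt
    have : (g * S) c = (S * g) c := by rw [hc.eq]
    rw [RelIso.mul_apply, RelIso.mul_apply, h0] at this
    exact this.symm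
  refine le_antisymm ?_ (key g hc)
  have h2 := g.monotone (key g⁻¹ hc.inv_left)
  rwa [RelIso.apply_inv_self] at h2

theorem fix_tr (hc : Commute g S) {c d : ℚ} (hd : 0 ≤ d) (h : ∀ x, c ≤ x → S x = x + d)
    (hg : g c = c) (n : ℕ) : g (c + n * d) = c + n * d := by
  have h1 := tr_pow hd h n c le_rfl
  have h2 : (g * S ^ n) c = (S ^ n * g) c := by rw [(hc.pow_right n).eq]
  rw [RelIso.mul_apply, RelIso.mul_apply, hg, h1] at h2
  exact h2

theorem fix_tr' (hc : Commute g S) {c d : ℚ} (hd : 0 ≤ d) (h : ∀ x, x ≤ c → S x = x - d)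
    (hg : g c = c) (n : ℕ) : g (c - n * d) = c - n * d := by
  have h1 := tr_pow' hd h n c le_rfl
  have h2 : (g * S ^ n) c = (S ^ n * g) c := by rw [(hc.pow_right n).eq]
  rw [RelIso.mul_apply, RelIso.mul_apply, hg, h1] at h2
  exact h2

end gen

/-- The element `s`. -/
def es (p q : ℤ) : ThompsonF := bb ga gb 1 ^ p * yy ga gb (-4) ^ q

/-- The element `t`. -/
def et (p q : ℤ) : ThompsonF := bb ga gb 0 ^ p * yy ga gb (-2) ^ q

theorem Phi_es (p q : ℤ) : Phi (es p q) = bb actA actB 1 ^ p * yy actA actB (-4) ^ q := by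
  unfold es
  rw [map_mul, map_zpow, map_zpow, Phi_bb, Phi_yy]

theorem Phi_et (p q : ℤ) : Phi (et p q) = bb actA actB 0 ^ p * yy actA actB (-2) ^ q := by
  unfold et
  rw [map_mul, map_zpow, map_zpow, Phi_bb, Phi_yy]

theorem es_fix (p q : ℤ) {x : ℚ} (h1 : -2 ≤ x) (h2 : x ≤ 1) : Phi (es p q) x = x := by
  rw [Phi_es, RelIso.mul_apply, fix_zpow (yy_ge (by push_cast; linarith)),
    fix_zpow (bb_le (by push_cast; linarith))]

theorem es_top {p : ℤ} (q : ℤ) (hp : p ≠ 0) {x : ℚ} (h : 1 < x) : Phi (es p q) x ≠ x := by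
  rw [Phi_es, RelIso.mul_apply, fix_zpow (yy_ge (by push_cast; linarith))]
  exact ne_zpow (bb_gt (by push_cast; linarith)) hp

theorem es_bot (p : ℤ) {q : ℤ} (hq : q ≠ 0) {x : ℚ} (h : x < -2) : Phi (es p q) x ≠ x := by
  rw [Phi_es, RelIso.mul_apply]
  have h1 : (yy actA actB (-4) ^ q) x ≠ x := ne_zpow (yy_gt (by push_cast; linarith)) hq
  have h2 : (yy actA actB (-4) ^ q) (-2) = -2 := fix_zpow (yy_ge (by push_cast; linarith)) q
  have h3 : (yy actA actB (-4) ^ q) x ≤ -2 := by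
    rw [← h2]; exact (yy actA actB (-4) ^ q).monotone h.le
  rw [fix_zpow (bb_le (by push_cast; linarith))]
  exact h1

theorem et_top (p q : ℤ) (hp : p ≠ 0) : ∃ T : ThompsonF, (T = et p q ∨ T = (et p q)⁻¹) ∧
    ∃ d : ℚ, 1 ≤ d ∧ ∀ x, 1 ≤ x → Phi T x = x + d := by
  have hpow : ∀ n : ℕ, ∀ x : ℚ, 1 ≤ x → (bb actA actB 0 ^ n) x = x + n := by
    intro n x hx
    have := tr_pow (f := bb actA actB 0) (c := 1) (d := 1) (by norm_num)
      (fun x hx => bb_ge (by push_cast; linarith)) n x hx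
    rw [this]; ring
  rcases lt_or_gt_of_ne hp with h0 | h0
  · obtain ⟨n, rfl⟩ : ∃ n : ℕ, p = -((n + 1 : ℕ) : ℤ) := ⟨p.natAbs - 1, by omega⟩
    refine ⟨_, Or.inr rfl, ((n + 1 : ℕ) : ℚ), by push_cast; linarith [Nat.cast_nonneg (α := ℚ) n],
      ?_⟩
    intro x hx
    rw [map_inv, Phi_et, mul_inv_rev, RelIso.mul_apply, zpow_neg, inv_inv, zpow_natCast,
      hpow _ x hx, ← zpow_neg]
    apply fix_zpow
    apply yy_ge
    push_cast
    have := Nat.cast_nonneg (α := ℚ) n
    linarith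
  · obtain ⟨n, rfl⟩ : ∃ n : ℕ, p = ((n + 1 : ℕ) : ℤ) := ⟨p.natAbs - 1, by omega⟩
    refine ⟨_, Or.inl rfl, ((n + 1 : ℕ) : ℚ), by push_cast; linarith [Nat.cast_nonneg (α := ℚ) n],
      ?_⟩
    intro x hx
    rw [Phi_et, RelIso.mul_apply, fix_zpow (yy_ge (by push_cast; linarith)), zpow_natCast,
      hpow _ x hx]

theorem et_bot (p q : ℤ) (hq : q ≠ 0) : ∃ T : ThompsonF, (T = et p q ∨ T = (et p q)⁻¹) ∧
    ∃ d : ℚ, 1 ≤ d ∧ ∀ x, x ≤ -2 → Phi T x = x - d := by
  have hpow : ∀ n : ℕ, ∀ x : ℚ, x ≤ -2 → ((yy actA actB (-2))⁻¹ ^ n) x = x - n := by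
    intro n x hx
    have := tr_pow' (f := (yy actA actB (-2))⁻¹) (c := -2) (d := 1) (by norm_num)
      (fun x hx => by
        have h1 := yy_le (k := -2) (x := x - 1) (by push_cast; linarith)
        have e : x - 1 + 1 = x := by ring
        rw [e] at h1
        conv_lhs => rw [← h1]
        rw [RelIso.inv_apply_self]) n x hx
    rw [this]; ring
  rcases lt_or_gt_of_ne hq with h0 | h0
  · obtain ⟨n, rfl⟩ : ∃ n : ℕ, q = -((n + 1 : ℕ) : ℤ) := ⟨q.natAbs - 1, by omega⟩
    refine ⟨_, Or.inl rfl, ((n + 1 : ℕ) : ℚ), by push_cast; linarith [Nat.cast_nonneg (α := ℚ) n],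
      ?_⟩
    intro x hx
    rw [Phi_et, RelIso.mul_apply, zpow_neg, zpow_natCast, ← inv_pow, hpow _ x hx]
    apply fix_zpow
    apply bb_le
    push_cast
    have := Nat.cast_nonneg (α := ℚ) n
    linarith
  · obtain ⟨n, rfl⟩ : ∃ n : ℕ, q = ((n + 1 : ℕ) : ℤ) := ⟨q.natAbs - 1, by omega⟩
    refine ⟨_, Or.inr rfl, ((n + 1 : ℕ) : ℚ), by push_cast; linarith [Nat.cast_nonneg (α := ℚ) n],
      ?_⟩
    intro x hx
    rw [map_inv, Phi_et, mul_inv_rev, RelIso.mul_apply, ← zpow_neg (bb actA actB 0) p,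
      fix_zpow (bb_le (by push_cast; linarith)), zpow_natCast, ← inv_pow, hpow _ x hx]

theorem mixed {p q : ℤ} (hp : p ≠ 0) (hq : q ≠ 0)
    (h : E (fun x => p * chi1 x + q * chi2 x)) : False := by
  obtain ⟨A, B, h⟩ := h
  have hs : p * chi1 (es p q) + q * chi2 (es p q) = 0 := by
    unfold es
    rw [chi1_chr, chi2_chr, chi1_chr.zpow, chi1_chr.zpow, chi2_chr.zpow, chi2_chr.zpow,
      chi1_bb, chi1_yy, chi2_bb, chi2_yy]
    ring
  have ht : p * chi1 (et p q) + q * chi2 (et p q) = 0 := by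
    unfold et
    rw [chi1_chr, chi2_chr, chi1_chr.zpow, chi1_chr.zpow, chi2_chr.zpow, chi2_chr.zpow,
      chi1_bb, chi1_yy, chi2_bb, chi2_yy]
    ring
  obtain ⟨i, hi⟩ := h.union _ hs
  obtain ⟨j, hj⟩ := h.union _ ht
  obtain ⟨g, hg0, hg⟩ := h.comm (min i j)
  have cs : Commute (Phi g) (Phi (es p q)) := by
    have : Commute g (es p q) := hg _ (h.mono (min_le_left _ _) hi)
    exact this.map Phi
  have ct : Commute (Phi g) (Phi (et p q)) := by
    have : Commute g (et p q) := hg _ (h.mono (min_le_right _ _) hj)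
    exact this.map Phi
  have ct' : ∀ T : ThompsonF, (T = et p q ∨ T = (et p q)⁻¹) → Commute (Phi g) (Phi T) := by
    rintro T (rfl | rfl)
    · exact ct
    · rw [map_inv]; exact ct.inv_right
  have g1 : Phi g 1 = 1 :=
    fix_top cs (es_fix p q (by norm_num) le_rfl) (fun x hx => es_top q hp hx)
  have g2 : Phi g (-2) = -2 :=
    fix_bot cs (es_fix p q le_rfl (by norm_num)) (fun x hx => es_bot p hq hx)
  have z2 : chi2 g = 0 := by
    obtain ⟨T, hT, d, hd, hTd⟩ := et_top p q hp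
    obtain ⟨M, hM⟩ := germ_top g
    obtain ⟨n, hn⟩ := exists_nat_ge M
    have h1 := fix_tr (ct' T hT) (by linarith) hTd g1 n
    have h2 := hM (1 + n * d) (by nlinarith [Nat.cast_nonneg (α := ℚ) n])
    rw [h1] at h2
    have : (chi2 g : ℚ) = 0 := by linarith
    exact_mod_cast this
  have z1 : chi1 g = 0 := by
    obtain ⟨T, hT, d, hd, hTd⟩ := et_bot p q hq
    obtain ⟨M, hM⟩ := germ_bot g
    obtain ⟨n, hn⟩ := exists_nat_ge (-M)
    have h1 := fix_tr' (ct' T hT) (by linarith) hTd g2 n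
    have h2 := hM (-2 - n * d) (by nlinarith [Nat.cast_nonneg (α := ℚ) n])
    rw [h1] at h2
    have : (chi1 g : ℚ) = 0 := by linarith
    exact_mod_cast this
  apply hg0
  simp only [z1, z2]; ring

theorem E_cases {χ : ThompsonF → ℤ} (h : E χ) :
    (∀ x, χ x = chi1 x) ∨ (∀ x, χ x = chi2 x) := by
  obtain ⟨A, B, hAB⟩ := id h
  obtain ⟨p, q, hpq⟩ := chr_eq hAB.chr
  have hA := hAB.hA
  by_cases hq : q = 0
  · subst hq
    have e : ∀ x, χ x = p * chi1 x := by intro x; rw [hpq x]; ring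
    rw [e] at hA
    rcases Int.eq_one_or_neg_one_of_mul_eq_one hA with rfl | rfl
    · left; intro x; rw [e x]; ring
    · exfalso
      have : χ = fun x => - chi1 x := by funext x; rw [e x]; ring
      rw [this] at h
      exact sign E1 h
  · by_cases hp : p = 0
    · subst hp
      have e : ∀ x, χ x = q * chi2 x := by intro x; rw [hpq x]; ring
      rw [e] at hA
      rcases Int.eq_one_or_neg_one_of_mul_eq_one hA with rfl | rfl
      · right; intro x; rw [e x]; ring
      · exfalso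
        have : χ = fun x => - chi2 x := by funext x; rw [e x]; ring
        rw [this] at h
        exact sign E2 h
    · exfalso
      have : χ = fun x => p * chi1 x + q * chi2 x := funext hpq
      rw [this] at h
      exact mixed hp hq h

theorem perm (α : MulAut ThompsonF) :
    ((∀ x, chi1 (α x) = chi1 x) ∧ (∀ x, chi2 (α x) = chi2 x)) ∨
      ((∀ x, chi1 (α x) = chi2 x) ∧ (∀ x, chi2 (α x) = chi1 x)) := by
  have ne : ¬ ∀ x, chi1 (α x) = chi2 (α x) := by
    intro h
    have := h (α⁻¹ ga)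
    rw [← MulAut.mul_apply, mul_inv_cancel] at this
    simp only [MulAut.one_apply, chi1_ga, chi2_ga] at this
    norm_num at this
  rcases E_cases (E1.comp α) with h1 | h1 <;> rcases E_cases (E2.comp α) with h2 | h2
  · exact absurd (fun x => (h1 x).trans (h2 x).symm) ne
  · exact Or.inl ⟨h1, h2⟩
  · exact Or.inr ⟨h1, h2⟩
  · exact absurd (fun x => (h1 x).trans (h2 x).symm) ne

/-- Thompson's group `F` is not the derived subgroup of any group. -/
theorem not_integrable (H : Type*) [Group H] : IsEmpty (commutator H ≃* ThompsonF) := by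
  refine ⟨fun e => ?_⟩
  have := obstruction e E1 E2 perm gb
  rw [chi1_gb, chi2_gb] at this
  norm_num at this

end Q151.Thom
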